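import Pool.Agent.Helper18_PP.StmtsDZ
import Pool.Agent.Helper94_PP.Bridge

/-!
# Squad PP, part DZ, module GAL: the correspondence of Gallagher
-/

open scoped BigOperators

noncomputable section

namespace Pool.Agent.PP.H33

open Pool.Agent.PP

section basic

variable {F H : Type} [Field F] [Group H] [Finite H]

theorem ev_surj {n : ℕ} {ρ : H →* Matrix (Fin n) (Fin n) F} (hρ : IsIrr ρ)
    (B : Matrix (Fin n) (Fin n) F) : ∃ a : H → F, ev ρ a = B := by
  have hB : B ∈ Submodule.span F (Set.range ρ) := by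
    rw [hρ.2]; trivial
  have := Fintype.ofFinite H
  rw [Submodule.mem_span_range_iff_exists_fun] at hB
  obtain ⟨c, hc⟩ := hB
  exact ⟨c, by rw [ev, finsum_eq_sum_of_fintype]; exact hc⟩

theorem ev_mem_span {n : ℕ} (ρ : H →* Matrix (Fin n) (Fin n) F) (a : H → F) :
    ev ρ a ∈ Submodule.span F (Set.range ρ) := by
  have := Fintype.ofFinite H
  rw [ev, finsum_eq_sum_of_fintype]
  exact Submodule.sum_mem _ fun t _ => Submodule.smul_mem _ _ (Submodule.subset_span ⟨t, rfl⟩)

omit [Finite H] in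
theorem kr_mul {n m : ℕ} (A A' : Matrix (Fin n) (Fin n) F) (B B' : Matrix (Fin m) (Fin m) F) :
    kr (A * A') (B * B') = kr A B * kr A' B' := by
  unfold kr
  have h := Matrix.mul_kronecker_mul A A' B B'
  rw [h, Matrix.reindex_apply, Matrix.reindex_apply, Matrix.reindex_apply,
    Matrix.submatrix_mul_equiv]

theorem kr_apply {n m : ℕ} (A : Matrix (Fin n) (Fin n) F) (B : Matrix (Fin m) (Fin m) F)
    (i j : Fin (n * m)) : kr A B i j =
      A (finProdFinEquiv.symm i).1 (finProdFinEquiv.symm j).1 *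
        B (finProdFinEquiv.symm i).2 (finProdFinEquiv.symm j).2 := rfl

theorem kr_one {n m : ℕ} : kr (1 : Matrix (Fin n) (Fin n) F) (1 : Matrix (Fin m) (Fin m) F) = 1 := by
  unfold kr
  have h := Matrix.one_kronecker_one (m := Fin n) (n := Fin m) (α := F)
  rw [h, Matrix.reindex_apply, Matrix.submatrix_one_equiv]

theorem kr_trace {n m : ℕ} (A : Matrix (Fin n) (Fin n) F) (B : Matrix (Fin m) (Fin m) F) :
    (kr A B).trace = A.trace * B.trace := by
  unfold Matrix.trace
  rw [Finset.sum_mul_sum, ← Finset.sum_product', ← Equiv.sum_comp finProdFinEquiv,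
    Finset.univ_product_univ]
  refine Finset.sum_congr rfl fun i _ => ?_
  rw [Matrix.diag_apply, kr_apply, Equiv.symm_apply_apply]
  rfl

theorem kr_add_left {n m : ℕ} (A A' : Matrix (Fin n) (Fin n) F) (B : Matrix (Fin m) (Fin m) F) :
    kr (A + A') B = kr A B + kr A' B := by
  ext i j
  simp only [kr_apply, Matrix.add_apply, add_mul]

theorem kr_add_right {n m : ℕ} (A : Matrix (Fin n) (Fin n) F) (B B' : Matrix (Fin m) (Fin m) F) :
    kr A (B + B') = kr A B + kr A B' := by
  ext i j
  simp only [kr_apply, Matrix.add_apply, mul_add]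

theorem kr_smul_left {n m : ℕ} (c : F) (A : Matrix (Fin n) (Fin n) F)
    (B : Matrix (Fin m) (Fin m) F) : kr (c • A) B = c • kr A B := by
  ext i j
  simp only [kr_apply, Matrix.smul_apply, smul_eq_mul, mul_assoc]

theorem kr_smul_right {n m : ℕ} (c : F) (A : Matrix (Fin n) (Fin n) F)
    (B : Matrix (Fin m) (Fin m) F) : kr A (c • B) = c • kr A B := by
  ext i j
  simp only [kr_apply, Matrix.smul_apply, smul_eq_mul]
  ring

theorem kr_zero_left {n m : ℕ} (B : Matrix (Fin m) (Fin m) F) :
    kr (0 : Matrix (Fin n) (Fin n) F) B = 0 := by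
  ext i j
  simp only [kr_apply, Matrix.zero_apply, zero_mul]

theorem kr_zero_right {n m : ℕ} (A : Matrix (Fin n) (Fin n) F) :
    kr A (0 : Matrix (Fin m) (Fin m) F) = 0 := by
  ext i j
  simp only [kr_apply, Matrix.zero_apply, mul_zero]

theorem top_of_kr {n m : ℕ} (S : Submodule F (Matrix (Fin (n * m)) (Fin (n * m)) F))
    (h : ∀ (A : Matrix (Fin n) (Fin n) F) (B : Matrix (Fin m) (Fin m) F), kr A B ∈ S) :
    S = ⊤ := by
  classical
  rw [eq_top_iff]
  intro M _
  rw [Matrix.matrix_eq_sum_single M]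
  refine Submodule.sum_mem _ fun i _ => Submodule.sum_mem _ fun j _ => ?_
  have e : Matrix.single i j (M i j) =
      kr (Matrix.single (finProdFinEquiv.symm i).1 (finProdFinEquiv.symm j).1 (M i j))
        (Matrix.single (finProdFinEquiv.symm i).2 (finProdFinEquiv.symm j).2 (1 : F)) := by
    ext i' j'
    rw [kr_apply, Matrix.single_apply, Matrix.single_apply, Matrix.single_apply]
    by_cases h1 : i = i' ∧ j = j'
    · obtain ⟨rfl, rfl⟩ := h1
      simp
    · rw [if_neg h1]
      by_cases h2 : (finProdFinEquiv.symm i).1 = (finProdFinEquiv.symm i').1 ∧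
        (finProdFinEquiv.symm j).1 = (finProdFinEquiv.symm j').1
      · rw [if_pos h2]
        rw [if_neg, mul_zero]
        rintro ⟨h3, h4⟩
        apply h1
        exact ⟨finProdFinEquiv.symm.injective (Prod.ext h2.1 h3),
          finProdFinEquiv.symm.injective (Prod.ext h2.2 h4)⟩
      · rw [if_neg h2, zero_mul]
  rw [e]
  exact h _ _

end basic

section idem

variable {F : Type} [Field F]

/-- rank factorisation of an idempotent matrix -/
theorem idem_factor {k : ℕ} (e : Matrix (Fin k) (Fin k) F) (he : e * e = e) :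
    ∃ (m : ℕ) (P : Matrix (Fin k) (Fin m) F) (Q : Matrix (Fin m) (Fin k) F),
      Q * P = 1 ∧ P * Q = e := by
  classical
  let f : (Fin k → F) →ₗ[F] (Fin k → F) := Matrix.toLin' e
  have hf : ∀ x, f (f x) = f x := by
    intro x
    change Matrix.toLin' e (Matrix.toLin' e x) = Matrix.toLin' e x
    rw [← Matrix.toLin'_mul_apply, he]
  let b : Module.Basis (Fin (Module.finrank F (LinearMap.range f))) F (LinearMap.range f) :=
    Module.finBasis F _
  refine ⟨Module.finrank F (LinearMap.range f),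
    LinearMap.toMatrix b (Pi.basisFun F (Fin k)) (LinearMap.range f).subtype,
    LinearMap.toMatrix (Pi.basisFun F (Fin k)) b f.rangeRestrict, ?_, ?_⟩
  · rw [← LinearMap.toMatrix_comp, ← LinearMap.toMatrix_id b]
    congr 1
    ext x
    obtain ⟨x, y, rfl⟩ := x
    exact congrFun (hf y) _
  · rw [← LinearMap.toMatrix_comp]
    have : (LinearMap.range f).subtype ∘ₗ f.rangeRestrict = f := by
      ext x; rfl
    rw [this]
    exact LinearMap.toMatrix'_toLin' e

end idem

section tr

variable {F H : Type} [Field F] [Group H] [Finite H]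

theorem trace_ev {n : ℕ} (ρ : H →* Matrix (Fin n) (Fin n) F) (a : H → F) :
    (ev ρ a).trace = ∑ᶠ t, a t * tr ρ t := by
  have := Fintype.ofFinite H
  rw [ev, finsum_eq_sum_of_fintype, finsum_eq_sum_of_fintype, Matrix.trace_sum]
  exact Finset.sum_congr rfl fun t _ => by rw [Matrix.trace_smul]; rfl

theorem tr_ne_zero {n : ℕ} {ρ : H →* Matrix (Fin n) (Fin n) F} (hρ : IsIrr ρ) :
    ∃ x, tr ρ x ≠ 0 := by
  by_contra hcon
  push Not at hcon
  obtain ⟨a, ha⟩ := ev_surj hρ (Matrix.single (⟨0, hρ.1⟩ : Fin n) ⟨0, hρ.1⟩ (1 : F))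
  have h := congrArg Matrix.trace ha
  rw [trace_ev, Matrix.trace_single_eq_same] at h
  have h2 : ∑ᶠ t, a t * tr ρ t = 0 := by
    have : ∀ t, a t * tr ρ t = 0 := fun t => by rw [hcon t, mul_zero]
    rw [finsum_congr this, finsum_zero]
  rw [h2] at h
  exact zero_ne_one h

end tr

section gal

variable {F X : Type} [Field F] [Group X] [Finite X] {C : Subgroup X} {n : ℕ}
  {α : X →* Matrix (Fin n) (Fin n) F}

omit [Finite X] in
theorem rep_inv (x : X) : α x * α x⁻¹ = 1 := by rw [← map_mul, mul_inv_cancel, map_one]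

omit [Finite X] in
theorem rep_inv' (x : X) : α x⁻¹ * α x = 1 := by rw [← map_mul, inv_mul_cancel, map_one]

/-- every matrix is a combination of the matrices of a coset -/
theorem coset_surj (hα : IsIrr (α.comp C.subtype)) (x : X) (A : Matrix (Fin n) (Fin n) F) :
    ∃ a : C → F, ∑ᶠ c : C, a c • α (x * c) = A := by
  obtain ⟨a, ha⟩ := ev_surj hα (α x⁻¹ * A)
  refine ⟨a, ?_⟩
  have := Fintype.ofFinite C
  rw [ev, finsum_eq_sum_of_fintype] at ha
  rw [finsum_eq_sum_of_fintype]
  calc ∑ c : C, a c • α (x * c) = α x * ∑ c : C, a c • (α.comp C.subtype) c := by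
        rw [Finset.mul_sum]
        refine Finset.sum_congr rfl fun c _ => ?_
        rw [map_mul, mul_smul_comm]; rfl
    _ = A := by rw [ha, ← mul_assoc, rep_inv, one_mul]

variable [C.Normal]

theorem zero_of_tr_mul (hα : IsIrr (α.comp C.subtype)) (u : X ⧸ C → F)
    (hu : ∀ x : X, tr α x * u x = 0) : u = 0 := by
  funext y
  induction y using QuotientGroup.induction_on with
  | H x =>
    obtain ⟨a, ha⟩ := coset_surj hα x (Matrix.single (⟨0, hα.1⟩ : Fin n) ⟨0, hα.1⟩ (1 : F))
    have h := congrArg Matrix.trace ha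
    have := Fintype.ofFinite C
    rw [finsum_eq_sum_of_fintype, Matrix.trace_sum, Matrix.trace_single_eq_same] at h
    have h2 : ∀ c : C, (a c • α (x * c)).trace * u x = 0 := by
      intro c
      have h3 := hu (x * c)
      have h4 : ((x * c : X) : X ⧸ C) = x := by
        rw [QuotientGroup.mk_mul, (QuotientGroup.eq_one_iff (c : X)).2 c.2, mul_one]
      rw [h4] at h3
      rw [Matrix.trace_smul, smul_eq_mul, mul_assoc]
      change a c * (tr α (x * c) * u x) = 0
      rw [h3, mul_zero]
    have h5 : (∑ c : C, (a c • α (x * c)).trace) * u x = 0 := by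
      rw [Finset.sum_mul]
      exact Finset.sum_eq_zero fun c _ => h2 c
    rw [h, one_mul] at h5
    exact h5

omit [C.Normal] in
theorem sum_cosets {V : Type} [AddCommMonoid V] (f : X → V) :
    ∑ᶠ t, f t = ∑ᶠ y : X ⧸ C, ∑ᶠ c : C, f (y.out * c) := by
  have := Fintype.ofFinite X
  have := Fintype.ofFinite C
  have := Fintype.ofFinite (X ⧸ C)
  simp only [finsum_eq_sum_of_fintype]
  have hb : Function.Bijective (fun p : (X ⧸ C) × C => p.1.out * (p.2 : X)) := by
    constructor
    · rintro ⟨y, c⟩ ⟨y', c'⟩ h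
      have h : y.out * (c : X) = y'.out * (c' : X) := h
      have h1 : y = y' := by
        have := congrArg (fun x : X => (x : X ⧸ C)) h
        simpa only [QuotientGroup.mk_mul_of_mem _ c.2, QuotientGroup.mk_mul_of_mem _ c'.2,
          QuotientGroup.out_eq'] using this
      subst h1
      have h2 := mul_left_cancel h
      rw [Subtype.ext h2]
    · intro x
      have h1 : (x : X ⧸ C).out⁻¹ * x ∈ C := by
        rw [← QuotientGroup.eq, QuotientGroup.out_eq']
      exact ⟨⟨(x : X ⧸ C), ⟨_, h1⟩⟩, mul_inv_cancel_left _ _⟩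
  rw [← Equiv.sum_comp (Equiv.ofBijective _ hb), Fintype.sum_prod_type]
  rfl

theorem actF_tr_mul (a : X → F) (a' : X ⧸ C → F)
    (h : ∀ g : X, ∑ᶠ c : C, a (g * c) • α (g * c) = Matrix.scalar (Fin n) (a' g))
    (κ : X ⧸ C → F) (x : X) :
    actF a (fun x : X => tr α x * κ x) x = tr α x * actF a' κ x := by
  have := Fintype.ofFinite C
  have := Fintype.ofFinite (X ⧸ C)
  rw [actF, sum_cosets (C := C), actF, finsum_eq_sum_of_fintype, finsum_eq_sum_of_fintype,
    Finset.mul_sum]
  refine Finset.sum_congr rfl fun y _ => ?_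
  have h1 := h y.out
  rw [QuotientGroup.out_eq', finsum_eq_sum_of_fintype] at h1
  rw [finsum_eq_sum_of_fintype]
  have h2 : ∀ c : C, a (y.out * c) * (tr α (y.out * c * x) * κ ((y.out * c * x : X) : X ⧸ C)) =
      ((a (y.out * c) • α (y.out * c)) * α x).trace * κ (y * (x : X ⧸ C)) := by
    intro c
    have h4 : ((y.out * c * x : X) : X ⧸ C) = y * x := by
      rw [QuotientGroup.mk_mul, QuotientGroup.mk_mul, (QuotientGroup.eq_one_iff (c : X)).2 c.2,
        mul_one, QuotientGroup.out_eq']
    rw [h4, smul_mul_assoc, ← map_mul, Matrix.trace_smul, smul_eq_mul, ← mul_assoc]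
    rfl
  rw [Finset.sum_congr rfl fun c _ => h2 c, ← Finset.sum_mul, ← Matrix.trace_sum,
    ← Finset.sum_mul, h1]
  have h5 : (Matrix.scalar (Fin n) (a' y) * α x).trace = a' y * tr α x := by
    rw [Matrix.scalar_apply, ← Matrix.smul_eq_diagonal_mul, Matrix.trace_smul, smul_eq_mul]
    rfl
  rw [h5]
  ring

/-- the tensor product -/
def tens {m : ℕ} (α : X →* Matrix (Fin n) (Fin n) F) (K : X ⧸ C →* Matrix (Fin m) (Fin m) F) :
    X →* Matrix (Fin (n * m)) (Fin (n * m)) F where
  toFun x := kr (α x) (K x)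
  map_one' := by rw [map_one, QuotientGroup.mk_one, map_one, kr_one]
  map_mul' x y := by rw [map_mul, QuotientGroup.mk_mul, map_mul, kr_mul]

theorem tens_irr {m : ℕ} (hα : IsIrr (α.comp C.subtype))
    (K : X ⧸ C →* Matrix (Fin m) (Fin m) F) (hK : IsIrr K) : IsIrr (tens α K) := by
  refine ⟨Nat.mul_pos hα.1 hK.1, top_of_kr _ fun A B => ?_⟩
  have hB : B ∈ Submodule.span F (Set.range K) := by rw [hK.2]; trivial
  induction hB using Submodule.span_induction with
  | mem B hB =>
    obtain ⟨y, rfl⟩ := hB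
    induction y using QuotientGroup.induction_on with
    | H x =>
      obtain ⟨a, ha⟩ := coset_surj hα x A
      have := Fintype.ofFinite C
      rw [finsum_eq_sum_of_fintype] at ha
      have e : kr A (K x) = ∑ c : C, a c • tens α K (x * c) := by
        rw [← ha]
        have : ∀ s : Finset C, kr (∑ c ∈ s, a c • α (x * c)) (K x) =
            ∑ c ∈ s, a c • tens α K (x * c) := by
          classical
          intro s
          induction s using Finset.induction_on with
          | empty => rw [Finset.sum_empty, Finset.sum_empty, kr_zero_left]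
          | insert c s hc ih =>
            rw [Finset.sum_insert hc, Finset.sum_insert hc, kr_add_left, ih, kr_smul_left]
            congr 2
            change kr (α (x * c)) (K x) = kr (α (x * c)) (K ((x * c : X) : X ⧸ C))
            rw [QuotientGroup.mk_mul, (QuotientGroup.eq_one_iff (c : X)).2 c.2, mul_one]
        exact this _
      rw [e]
      exact Submodule.sum_mem _ fun c _ =>
        Submodule.smul_mem _ _ (Submodule.subset_span ⟨_, rfl⟩)
  | zero => rw [kr_zero_right]; exact Submodule.zero_mem _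
  | add B B' _ _ h h' => rw [kr_add_right]; exact Submodule.add_mem _ h h'
  | smul c B _ h => rw [kr_smul_right]; exact Submodule.smul_mem _ _ h


omit [C.Normal] in
/-- the map of matrix algebras defined by a representation over `α` -/
theorem exists_phi (hα : IsIrr (α.comp C.subtype)) {k : ℕ} (V : X →* Matrix (Fin k) (Fin k) F)
    (h : ∀ a : C → F, ev (α.comp C.subtype) a = 0 → ev (V.comp C.subtype) a = 0) :
    ∃ φ : Matrix (Fin n) (Fin n) F →ₗ[F] Matrix (Fin k) (Fin k) F,
      (∀ A B, φ (A * B) = φ A * φ B) ∧ (∀ c ∈ C, φ (α c) = V c) := by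
  have hw : ∀ a b : C → F, ev (α.comp C.subtype) a = ev (α.comp C.subtype) b →
      ev (V.comp C.subtype) a = ev (V.comp C.subtype) b := by
    intro a b hab
    have h1 := h (a + (-1 : F) • b) (by
      rw [ev_add, ev_smul, hab, neg_smul, one_smul, add_neg_cancel])
    rw [ev_add, ev_smul, neg_smul, one_smul] at h1
    exact add_neg_eq_zero.1 h1
  choose g hg using fun A => ev_surj hα A
  let φ : Matrix (Fin n) (Fin n) F →ₗ[F] Matrix (Fin k) (Fin k) F :=
    { toFun := fun A => ev (V.comp C.subtype) (g A)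
      map_add' := fun A B => by
        rw [← ev_add]
        exact hw _ _ (by rw [ev_add, hg, hg, hg])
      map_smul' := fun c A => by
        rw [RingHom.id_apply, ← ev_smul]
        exact hw _ _ (by rw [ev_smul, hg, hg]) }
  refine ⟨φ, ?_, ?_⟩
  · intro A B
    change ev (V.comp C.subtype) (g (A * B)) =
      ev (V.comp C.subtype) (g A) * ev (V.comp C.subtype) (g B)
    rw [← ev_mulF]
    exact hw _ _ (by rw [ev_mulF, hg, hg, hg])
  · intro c hc
    change ev (V.comp C.subtype) (g (α c)) = V c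
    have h1 := hw (g (α c)) (dl F (⟨c, hc⟩ : C)) (by rw [hg, ev_dl]; rfl)
    rw [h1, ev_dl]
    rfl

omit [Finite X] in
theorem conj_phi (hα : IsIrr (α.comp C.subtype)) {k : ℕ} {V : X →* Matrix (Fin k) (Fin k) F}
    {φ : Matrix (Fin n) (Fin n) F →ₗ[F] Matrix (Fin k) (Fin k) F}
    (h2 : ∀ c ∈ C, φ (α c) = V c) (x : X) (A : Matrix (Fin n) (Fin n) F) :
    V x * φ A = φ (α x * A * α x⁻¹) * V x := by
  have hA : A ∈ Submodule.span F (Set.range (α.comp C.subtype)) := by rw [hα.2]; trivial
  induction hA using Submodule.span_induction with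
  | mem A hA =>
    obtain ⟨c, rfl⟩ := hA
    change V x * φ (α c) = φ (α x * α c * α x⁻¹) * V x
    rw [← map_mul, ← map_mul, h2 c c.2, h2 _ (Subgroup.Normal.conj_mem inferInstance _ c.2 x),
      ← map_mul, ← map_mul, inv_mul_cancel_right]
  | zero => rw [map_zero, mul_zero, mul_zero, zero_mul, map_zero, zero_mul]
  | add A B _ _ hA hB => rw [map_add, mul_add, hA, hB, mul_add, add_mul, map_add, add_mul]
  | smul c A _ hA =>
    rw [map_smul, mul_smul_comm, hA, mul_smul_comm, smul_mul_assoc, map_smul, smul_mul_assoc]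

theorem trace_phi {k : ℕ} {φ : Matrix (Fin n) (Fin n) F →ₗ[F] Matrix (Fin k) (Fin k) F}
    (h1 : ∀ A B, φ (A * B) = φ A * φ B) (i0 : Fin n) (W : Matrix (Fin k) (Fin k) F)
    (hW : ∀ A, W * φ A = φ A * W) (A : Matrix (Fin n) (Fin n) F) :
    (φ A * W).trace = A.trace * (W * φ (Matrix.single i0 i0 1)).trace := by
  classical
  have key : ∀ i j (c : F), (φ (Matrix.single i j c) * W).trace =
      (if i = j then c else 0) * (W * φ (Matrix.single i0 i0 1)).trace := by
    intro i j c
    have e1 : Matrix.single i j c = Matrix.single i i0 c * Matrix.single i0 j 1 := by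
      rw [Matrix.single_mul_single_same, mul_one]
    rw [e1, h1, mul_assoc, Matrix.trace_mul_comm, mul_assoc, ← mul_assoc, ← hW, mul_assoc,
      ← h1]
    by_cases hij : i = j
    · subst hij
      rw [if_pos rfl, Matrix.single_mul_single_same, one_mul]
      have e2 : Matrix.single i0 i0 c = c • Matrix.single i0 i0 (1 : F) := by
        rw [Matrix.smul_single, smul_eq_mul, mul_one]
      rw [e2, map_smul, mul_smul_comm, Matrix.trace_smul, smul_eq_mul]
    · rw [if_neg hij, Matrix.single_mul_single_of_ne (h := fun h => hij h.symm), map_zero,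
        mul_zero, Matrix.trace_zero, zero_mul]
  conv_lhs => rw [Matrix.matrix_eq_sum_single A]
  rw [map_sum, Finset.sum_mul, Matrix.trace_sum, Matrix.trace, Finset.sum_mul]
  refine Finset.sum_congr rfl fun i _ => ?_
  rw [map_sum, Finset.sum_mul, Matrix.trace_sum, Finset.sum_eq_single i]
  · rw [key, if_pos rfl]; rfl
  · intro j _ hj
    rw [key, if_neg (fun h => hj h.symm), zero_mul]
  · intro hi
    exact absurd (Finset.mem_univ _) hi

/-- a representation over `α` is a tensor product -/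
theorem over_alpha (hα : IsIrr (α.comp C.subtype)) {k : ℕ} (V : X →* Matrix (Fin k) (Fin k) F)
    (hV : IsIrr V)
    (h : ∀ a : C → F, ev (α.comp C.subtype) a = 0 → ev (V.comp C.subtype) a = 0) :
    ∃ (m : ℕ) (K : X ⧸ C →* Matrix (Fin m) (Fin m) F), IsIrr K ∧
      ∀ x : X, tr V x = tr α x * tr K x := by
  classical
  obtain ⟨φ, h1, h2⟩ := exists_phi hα V h
  have hφ1 : φ 1 = 1 := by
    rw [← map_one α, h2 1 C.one_mem, map_one]
  have hW : ∀ (x : X) (A : Matrix (Fin n) (Fin n) F),
      (φ (α x⁻¹) * V x) * φ A = φ A * (φ (α x⁻¹) * V x) := by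
    intro x A
    rw [mul_assoc, conj_phi hα h2, ← mul_assoc, ← h1, ← mul_assoc (φ A), ← h1, ← mul_assoc,
      ← mul_assoc, rep_inv', one_mul]
  have hWm : ∀ x y : X, (φ (α (x * y)⁻¹) * V (x * y)) =
      (φ (α x⁻¹) * V x) * (φ (α y⁻¹) * V y) := by
    intro x y
    calc φ (α (x * y)⁻¹) * V (x * y) = φ (α y⁻¹) * φ (α x⁻¹) * (V x * V y) := by
          rw [mul_inv_rev, map_mul α, h1, map_mul V]
      _ = _ := by
          rw [← mul_assoc (φ (α x⁻¹) * V x), hW]
          simp only [mul_assoc]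
  have hWc : ∀ c ∈ C, φ (α c⁻¹) * V c = 1 := by
    intro c hc
    rw [h2 _ (C.inv_mem hc), rep_inv']
  obtain ⟨m, P, Q, hQP, hPQ⟩ := idem_factor (φ (Matrix.single (⟨0, hα.1⟩ : Fin n) ⟨0, hα.1⟩ 1))
    (by rw [← h1, Matrix.single_mul_single_same, one_mul])
  have hQe : Q * φ (Matrix.single (⟨0, hα.1⟩ : Fin n) ⟨0, hα.1⟩ 1) = Q := by
    rw [← hPQ, ← Matrix.mul_assoc, hQP, Matrix.one_mul]
  have heP : φ (Matrix.single (⟨0, hα.1⟩ : Fin n) ⟨0, hα.1⟩ 1) * P = P := by
    rw [← hPQ, Matrix.mul_assoc, hQP, Matrix.mul_one]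
  let KX : X →* Matrix (Fin m) (Fin m) F :=
    { toFun := fun x => Q * (φ (α x⁻¹) * V x) * P
      map_one' := by
        rw [hWc 1 C.one_mem, Matrix.mul_one, hQP]
      map_mul' := fun x y => by
        have e1 : Q * (φ (α x⁻¹) * V x) * P * (Q * (φ (α y⁻¹) * V y) * P) =
            Q * ((φ (α x⁻¹) * V x) * (P * Q)) * ((φ (α y⁻¹) * V y) * P) := by
          simp only [Matrix.mul_assoc]
        rw [e1, hPQ, hW, ← Matrix.mul_assoc Q (φ (Matrix.single _ _ 1)), hQe, hWm]
        simp only [Matrix.mul_assoc] }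
  have hKX : ∀ x, KX x = Q * (φ (α x⁻¹) * V x) * P := fun _ => rfl
  have hker : C ≤ KX.ker := by
    intro c hc
    rw [MonoidHom.mem_ker, hKX, hWc c hc, Matrix.mul_one, hQP]
  have htr : ∀ x : X, tr V x = tr α x * (KX x).trace := by
    intro x
    have e1 : V x = φ (α x) * (φ (α x⁻¹) * V x) := by
      rw [← mul_assoc, ← h1, rep_inv, hφ1, one_mul]
    rw [tr, e1, trace_phi h1 ⟨0, hα.1⟩ _ (hW x), hKX, ← hPQ, ← Matrix.mul_assoc,
      Matrix.trace_mul_comm _ Q, ← Matrix.mul_assoc]
    rfl
  refine ⟨m, QuotientGroup.lift C KX hker, ⟨?_, ?_⟩, ?_⟩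
  · obtain ⟨x, hx⟩ := tr_ne_zero hV
    rw [htr] at hx
    rcases Nat.eq_zero_or_pos m with h0 | h0
    · subst h0
      exfalso
      apply hx
      have : (KX x).trace = 0 := by
        rw [Matrix.trace]
        exact Finset.sum_of_isEmpty _
      rw [this, mul_zero]
    · exact h0
  · rw [eq_top_iff]
    intro B _
    obtain ⟨a, ha⟩ := ev_surj hV (P * B * Q)
    have e1 : B = Q * (P * B * Q) * P := by
      rw [← Matrix.mul_assoc, ← Matrix.mul_assoc, hQP, Matrix.one_mul, Matrix.mul_assoc, hQP,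
        Matrix.mul_one]
    have := Fintype.ofFinite X
    rw [e1, ← ha, ev, finsum_eq_sum_of_fintype, Matrix.mul_sum, Matrix.sum_mul]
    refine Submodule.sum_mem _ fun x _ => ?_
    have e2 : Q * (a x • V x) * P = (a x * α x ⟨0, hα.1⟩ ⟨0, hα.1⟩) • KX x := by
      have e3 : V x = φ (α x) * (φ (α x⁻¹) * V x) := by
        rw [← mul_assoc, ← h1, rep_inv, hφ1, one_mul]
      have e4 : Q * V x * P = α x ⟨0, hα.1⟩ ⟨0, hα.1⟩ • KX x := by
        have e5 : Q * V x * P = Q * (φ (Matrix.single (⟨0, hα.1⟩ : Fin n) ⟨0, hα.1⟩ 1) *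
            φ (α x) * φ (Matrix.single (⟨0, hα.1⟩ : Fin n) ⟨0, hα.1⟩ 1)) *
            (φ (α x⁻¹) * V x) * P := by
          calc Q * V x * P
              = Q * φ (Matrix.single (⟨0, hα.1⟩ : Fin n) ⟨0, hα.1⟩ 1) *
                (φ (α x) * (φ (α x⁻¹) * V x)) *
                (φ (Matrix.single (⟨0, hα.1⟩ : Fin n) ⟨0, hα.1⟩ 1) * P) := by
                rw [hQe, heP, ← e3]
            _ = Q * φ (Matrix.single (⟨0, hα.1⟩ : Fin n) ⟨0, hα.1⟩ 1) * φ (α x) *
                ((φ (α x⁻¹) * V x) *
                φ (Matrix.single (⟨0, hα.1⟩ : Fin n) ⟨0, hα.1⟩ 1)) * P := by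
                simp only [Matrix.mul_assoc]
            _ = _ := by
                rw [hW]
                simp only [Matrix.mul_assoc]
        have e6 : Matrix.single (⟨0, hα.1⟩ : Fin n) ⟨0, hα.1⟩ (1 : F) * α x *
            Matrix.single (⟨0, hα.1⟩ : Fin n) ⟨0, hα.1⟩ 1 =
            α x ⟨0, hα.1⟩ ⟨0, hα.1⟩ • Matrix.single (⟨0, hα.1⟩ : Fin n) ⟨0, hα.1⟩ 1 := by
          rw [Matrix.single_mul_mul_single, one_mul, mul_one, Matrix.smul_single, smul_eq_mul,
            mul_one]
        rw [e5, ← h1, ← h1, e6, map_smul, Matrix.mul_smul, hQe, Matrix.smul_mul,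
          Matrix.smul_mul, hKX]
      rw [Matrix.mul_smul, Matrix.smul_mul, e4, smul_smul]
    rw [e2]
    refine Submodule.smul_mem _ _ (Submodule.subset_span ⟨(x : X ⧸ C), ?_⟩)
    rfl
  · intro x
    rw [htr]
    rfl

end gal

theorem gal : GalStmt := by
  intro ℓ F _ hF X _ _ C _ n α hα
  refine ⟨?_, ?_, ?_, ?_⟩
  · intro m K hK
    exact ⟨tens α K, tens_irr hα K hK, fun x => rfl, fun x => kr_trace _ _⟩
  · intro k V hV h
    exact over_alpha hα V hV h
  · intro κ _ κ' _ h
    have h1 := zero_of_tr_mul hα (κ - κ') (fun x => by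
      rw [Pi.sub_apply, mul_sub, h x, sub_self])
    exact sub_eq_zero.1 h1
  · intro a a' _ h κ _
    constructor
    · intro h1
      have h2 := zero_of_tr_mul hα (actF a' κ - κ) (fun x => by
        have h3 := congrFun h1 x
        rw [actF_tr_mul a a' h κ x] at h3
        rw [Pi.sub_apply, mul_sub, h3, sub_self])
      exact sub_eq_zero.1 h2
    · intro h1
      funext x
      rw [actF_tr_mul a a' h κ x, h1]

end Pool.Agent.PP.H33
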