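import Pool.Agent.Helper98_PP.StmtsR2
import Pool.Agent.Helper20_PP.Fun

/-!
# Squad PP, part R2, module SWA: exchange of the two automorphisms of a torus datum
-/

open scoped BigOperators

noncomputable section

namespace Pool.Agent.PP.H33S

open Pool.Agent.Helper51_AWC Pool.Agent.Helper79_WRA Pool.Agent.PP Pool.Agent.PP.H20

variable {F Y : Type} [Field F] [Group Y]

/-! ## Algebra of the automorphisms -/

theorem tw_apply (α : MulAut Y) (n y : Y) : tw α n y = α (n * y * n⁻¹) := rfl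

theorem kap_apply (α β : MulAut Y) (y : Y) : kap α β y = α (β (α⁻¹ (β⁻¹ y))) := rfl

theorem kap_swap (α β : MulAut Y) : kap β α = (kap α β)⁻¹ := by
  unfold kap
  group

theorem mul_conj (α : MulAut Y) (n : Y) : α * MulAut.conj n = MulAut.conj (α n) * α := by
  ext y
  simp [MulAut.mul_apply, MulAut.conj_apply, map_mul]

theorem kap_tw (α β : MulAut Y) (n m : Y) :
    kap (tw α n) (tw β m) = kap α β * MulAut.conj (cc α β n m) := by
  have h1 : kap (tw α n) (tw β m) =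
      MulAut.conj (α (n * β m * (β n)⁻¹)) * kap α β * MulAut.conj (β m)⁻¹ := by
    have e1 : β * MulAut.conj m = MulAut.conj (β m) * β := mul_conj β m
    have e2 : β * MulAut.conj n = MulAut.conj (β n) * β := mul_conj β n
    have e4 : β * (MulAut.conj n)⁻¹ = (MulAut.conj (β n))⁻¹ * β := by
      rw [← map_inv, mul_conj, map_inv, map_inv]
    have e5 : (MulAut.conj m)⁻¹ * β⁻¹ = β⁻¹ * MulAut.conj (β m)⁻¹ := by
      rw [← mul_inv_rev, e1, mul_inv_rev, map_inv]
    have e6 : MulAut.conj (α (n * β m * (β n)⁻¹)) * α =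
        α * MulAut.conj (n * β m * (β n)⁻¹) := (mul_conj _ _).symm
    unfold kap tw
    calc α * MulAut.conj n * (β * MulAut.conj m) * (α * MulAut.conj n)⁻¹ *
          (β * MulAut.conj m)⁻¹
        = α * MulAut.conj n * (β * MulAut.conj m) * (MulAut.conj n)⁻¹ * α⁻¹ *
            ((MulAut.conj m)⁻¹ * β⁻¹) := by rw [mul_inv_rev, mul_inv_rev]; group
      _ = α * MulAut.conj n * MulAut.conj (β m) * (β * (MulAut.conj n)⁻¹) * α⁻¹ *
            (β⁻¹ * MulAut.conj (β m)⁻¹) := by rw [e1, e5]; group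
      _ = α * MulAut.conj (n * β m * (β n)⁻¹) * β * α⁻¹ *
            (β⁻¹ * MulAut.conj (β m)⁻¹) := by
          rw [e4, map_mul MulAut.conj, map_mul MulAut.conj, map_inv MulAut.conj (β n)]; group
      _ = MulAut.conj (α (n * β m * (β n)⁻¹)) * α * β * α⁻¹ *
            (β⁻¹ * MulAut.conj (β m)⁻¹) := by rw [e6]
      _ = MulAut.conj (α (n * β m * (β n)⁻¹)) * (α * β * α⁻¹ * β⁻¹) *
            MulAut.conj (β m)⁻¹ := by group
  have h2 : MulAut.conj (α (n * β m * (β n)⁻¹)) * kap α β =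
      kap α β * MulAut.conj ((kap α β)⁻¹ (α (n * β m * (β n)⁻¹))) := by
    rw [mul_conj, MulAut.apply_inv_self]
  rw [h1, h2, cc, map_mul MulAut.conj, map_inv MulAut.conj, mul_assoc]

theorem kap_cc (α β : MulAut Y) (n m : Y) : cc β α m n = (kap α β (cc α β n m))⁻¹ := by
  have h1 : kap α β (cc α β n m) = α (n * β m * (β n)⁻¹) * (kap α β (β m))⁻¹ := by
    rw [cc, map_mul, MulAut.apply_inv_self, map_inv]
  have h2 : ∀ y, kap α β (β (α y)) = α (β y) := by
    intro y
    rw [kap_apply, MulAut.inv_apply_self, MulAut.inv_apply_self]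
  rw [h1, cc, kap_swap, inv_inv, map_mul, map_mul, map_mul, map_mul, map_inv, map_inv,
    h2, h2]
  simp only [map_mul, map_inv, mul_inv_rev, inv_inv, mul_assoc]

/-! ## Chains fixed by automorphisms -/

theorem fixC_mul {α β : MulAut Y} {d : Finset (Subgroup Y)} (ha : FixC α d) (hb : FixC β d) :
    FixC (α * β) d := by
  intro D hD
  have h : D.map (α * β).toMonoidHom = (D.map β.toMonoidHom).map α.toMonoidHom := by
    rw [Subgroup.map_map]
    rfl
  rw [h, hb D hD, ha D hD]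

theorem fixC_inv {α : MulAut Y} {d : Finset (Subgroup Y)} (ha : FixC α d) : FixC α⁻¹ d := by
  intro D hD
  have h1 := ha D hD
  have h2 : (D.map α.toMonoidHom).map (α⁻¹).toMonoidHom = D := by
    rw [Subgroup.map_map]
    have : (α⁻¹).toMonoidHom.comp α.toMonoidHom = MonoidHom.id Y := by
      ext y
      exact MulAut.inv_apply_self _ α y
    rw [this, Subgroup.map_id]
  rw [h1] at h2
  exact h2

theorem mem_stab {d : Finset (Subgroup Y)} {h : Y} :
    h ∈ stab d ↔ ∀ D ∈ d, h ∈ Subgroup.normalizer (D : Set Y) := by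
  simp [stab, Subgroup.mem_iInf]

theorem stab_map {α : MulAut Y} {d : Finset (Subgroup Y)} (ha : FixC α d) {h : Y}
    (hh : h ∈ stab d) : α h ∈ stab d := by
  rw [mem_stab] at *
  intro D hD
  have hmem : ∀ x, x ∈ D ↔ α x ∈ D := by
    intro x
    constructor
    · intro hx
      have := Subgroup.mem_map_of_mem α.toMonoidHom hx
      rw [ha D hD] at this
      exact this
    · intro hx
      have := Subgroup.mem_map_of_mem (α⁻¹).toMonoidHom hx
      rw [fixC_inv ha D hD] at this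
      have h2 : α⁻¹ (α x) ∈ D := this
      rwa [MulAut.inv_apply_self] at h2
  rw [Subgroup.mem_normalizer_iff]
  intro x
  have h1 := (Subgroup.mem_normalizer_iff.1 (hh D hD)) (α⁻¹ x)
  have e1 : x = α (α⁻¹ x) := (MulAut.apply_inv_self _ α x).symm
  have e2 : α h * x * (α h)⁻¹ = α (h * α⁻¹ x * h⁻¹) := by
    rw [map_mul, map_mul, map_inv, MulAut.apply_inv_self]
  rw [e2]
  constructor
  · intro hx
    rw [e1] at hx
    exact (hmem _).1 (h1.1 ((hmem _).2 hx))
  · intro hx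
    rw [e1]
    exact (hmem _).1 (h1.2 ((hmem _).2 hx))

/-! ## Implementing matrices -/

theorem impl_mul {d : Finset (Subgroup Y)} {n : ℕ} {ρ : stab d →* Matrix (Fin n) (Fin n) F}
    {α β : MulAut Y} {A B : (Matrix (Fin n) (Fin n) F)ˣ} (hb : FixC β d)
    (hA : Impl ρ α A) (hB : Impl ρ β B) : Impl ρ (α * β : MulAut Y) (A * B) := by
  intro h h' e
  have e1 : (h' : Y) = α (⟨β h, stab_map hb h.2⟩ : stab d) := e
  rw [Units.val_mul, mul_assoc, hB h ⟨β h, stab_map hb h.2⟩ rfl, ← mul_assoc, hA _ h' e1,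
    mul_assoc]

theorem impl_inv {d : Finset (Subgroup Y)} {n : ℕ} {ρ : stab d →* Matrix (Fin n) (Fin n) F}
    {α : MulAut Y} {A : (Matrix (Fin n) (Fin n) F)ˣ}
    (hA : Impl ρ α A) : Impl ρ (α⁻¹ : MulAut Y) A⁻¹ := by
  intro h h' e
  have e1 : (h : Y) = α h' := by
    rw [e]
    exact (MulAut.apply_inv_self _ α h).symm
  have h1 := hA h' h e1
  calc (((A⁻¹ : (Matrix (Fin n) (Fin n) F)ˣ)) : Matrix (Fin n) (Fin n) F) * ρ h
      = ((A⁻¹ : (Matrix (Fin n) (Fin n) F)ˣ) : Matrix (Fin n) (Fin n) F) * (ρ h * A) *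
          ((A⁻¹ : (Matrix (Fin n) (Fin n) F)ˣ) : Matrix (Fin n) (Fin n) F) := by
        rw [mul_assoc, mul_assoc, Units.mul_inv, mul_one]
    _ = ρ h' * ((A⁻¹ : (Matrix (Fin n) (Fin n) F)ˣ) : Matrix (Fin n) (Fin n) F) := by
        rw [← h1, ← mul_assoc, Units.inv_mul, one_mul]

/-! ## Units -/

section units

variable [Finite Y]

theorem comm_iff {γ : MulAut Y} {w : Y → F} :
    (∀ n y, w (γ⁻¹ n * y * n⁻¹) = w y) ↔ ∀ n, toMA w * MonoidAlgebra.single n (1 : F) =
      MonoidAlgebra.single (γ⁻¹ n) (1 : F) * toMA w := by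
  constructor
  · intro h n
    rw [toMA_mul_single, single_mul_toMA]
    congr 1
    funext y
    rw [← h n ((γ⁻¹ n)⁻¹ * y), mul_inv_cancel_left]
  · intro h n y
    have h1 := h n
    rw [toMA_mul_single, single_mul_toMA, toMA_inj] at h1
    have h2 := congrFun h1 (γ⁻¹ n * y)
    have h3 : w (γ⁻¹ n * y * n⁻¹) = w ((γ⁻¹ n)⁻¹ * (γ⁻¹ n * y)) := h2
    rw [h3, inv_mul_cancel_left]

theorem unt_inv {f : Y → F} {γ : MulAut Y} {w wi : Y → F} (hf : IsCl f) (h : Unt f γ w wi) :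
    Unt f γ⁻¹ wi w := by
  refine ⟨h.fwi, h.fw, h.unit', h.unit, ?_⟩
  rw [comm_iff]
  intro n
  rw [inv_inv]
  have h1 := comm_iff.1 h.comm (γ n)
  rw [MulAut.inv_apply_self] at h1
  have hw : toMA wi * toMA w = toMA f := by rw [← toMA_mulF, h.unit']
  have hw' : toMA w * toMA wi = toMA f := by rw [← toMA_mulF, h.unit]
  have hfi : toMA f * toMA wi = toMA wi := by rw [← toMA_mulF, h.fwi]
  have hcen := (isCl_iff f).1 hf
  have h2 : toMA wi * (toMA w * MonoidAlgebra.single (γ n) (1 : F)) * toMA wi =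
      toMA wi * (MonoidAlgebra.single n (1 : F) * toMA w) * toMA wi := by rw [h1]
  rw [← mul_assoc, hw, hcen, mul_assoc, hfi] at h2
  rw [h2, mul_assoc, mul_assoc, hw', ← hcen, ← mul_assoc, ← hcen, hfi]

omit [Finite Y] in
theorem cl_of_blk {f : Y → F} (h : IsBlk f) : IsCl f := h.1.1

theorem tor_swap {f : Y → F} {α β : MulAut Y} {w wi : Y → F} (h : Torus f α β w wi) :
    Torus f β α wi w := by
  refine ⟨h.blk, h.fb, h.fa, ?_⟩
  rw [kap_swap]
  exact unt_inv (cl_of_blk h.blk) h.unt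

theorem tor_tw {f : Y → F} {α β : MulAut Y} {w wi : Y → F} (h : Torus f α β w wi) (n m : Y) :
    Torus f (tw α n) (tw β m) (fun y => w (cc α β n m * y))
      (fun y => wi (y * (cc α β n m)⁻¹)) := by
  have hcl := cl_of_blk h.blk
  have hcen := (isCl_iff f).1 hcl
  set c := cc α β n m with hc
  have e1 : toMA (fun y => w (c * y)) = MonoidAlgebra.single c⁻¹ (1 : F) * toMA w := by
    rw [single_mul_toMA, inv_inv]
  have e2 : toMA (fun y => wi (y * c⁻¹)) = toMA wi * MonoidAlgebra.single c (1 : F) :=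
    (toMA_mul_single c wi).symm
  have hw : toMA wi * toMA w = toMA f := by rw [← toMA_mulF, h.unt.unit']
  have hw' : toMA w * toMA wi = toMA f := by rw [← toMA_mulF, h.unt.unit]
  have hfw : toMA f * toMA w = toMA w := by rw [← toMA_mulF, h.unt.fw]
  have hfi : toMA f * toMA wi = toMA wi := by rw [← toMA_mulF, h.unt.fwi]
  have hs1 : MonoidAlgebra.single c⁻¹ (1 : F) * MonoidAlgebra.single c (1 : F) = 1 := by
    rw [MonoidAlgebra.single_mul_single, inv_mul_cancel, mul_one, MonoidAlgebra.one_def]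
  have hs2 : MonoidAlgebra.single c (1 : F) * MonoidAlgebra.single c⁻¹ (1 : F) = 1 := by
    rw [MonoidAlgebra.single_mul_single, mul_inv_cancel, mul_one, MonoidAlgebra.one_def]
  refine ⟨h.blk, ?_, ?_, ?_, ?_, ?_, ?_, ?_⟩
  · intro y
    rw [tw_apply, h.fa, hcl]
  · intro y
    rw [tw_apply, h.fb, hcl]
  · apply toMA_injective
    rw [toMA_mulF, e1, ← mul_assoc, hcen, mul_assoc, hfw]
  · apply toMA_injective
    rw [toMA_mulF, e2, ← mul_assoc, hfi]
  · apply toMA_injective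
    rw [toMA_mulF, e1, e2]
    calc MonoidAlgebra.single c⁻¹ (1 : F) * toMA w * (toMA wi * MonoidAlgebra.single c (1 : F))
        = MonoidAlgebra.single c⁻¹ (1 : F) * ((toMA w * toMA wi) *
            MonoidAlgebra.single c (1 : F)) := by simp only [mul_assoc]
      _ = toMA f := by rw [hw', hcen, ← mul_assoc, hs1, one_mul]
  · apply toMA_injective
    rw [toMA_mulF, e1, e2]
    calc toMA wi * MonoidAlgebra.single c (1 : F) * (MonoidAlgebra.single c⁻¹ (1 : F) * toMA w)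
        = toMA wi * (MonoidAlgebra.single c (1 : F) * MonoidAlgebra.single c⁻¹ (1 : F)) *
            toMA w := by simp only [mul_assoc]
      _ = toMA f := by rw [hs2, mul_one, hw]
  · refine (comm_iff (w := fun y => w (c * y))).2 ?_
    intro x
    rw [e1, mul_assoc, comm_iff.1 h.unt.comm x, kap_tw, ← hc]
    have e3 : (kap α β * MulAut.conj c)⁻¹ x = c⁻¹ * (kap α β)⁻¹ x * c := by
      rw [mul_inv_rev, MulAut.mul_apply, MulAut.conj_inv_apply]
    rw [e3, ← mul_assoc, ← mul_assoc, MonoidAlgebra.single_mul_single,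
      MonoidAlgebra.single_mul_single, mul_one]
    congr 2
    rw [mul_inv_cancel_right]

omit [Finite Y] in
theorem mulF_comp (γ : MulAut Y) (a b : Y → F) :
    mulF (fun y => a (γ y)) (fun y => b (γ y)) = fun y => mulF a b (γ y) := by
  funext x
  unfold mulF
  have h1 := finsum_comp_equiv γ.toEquiv (f := fun t : Y => a t * b (t⁻¹ * γ x))
  rw [← h1]
  apply finsum_congr
  intro t
  have h2 : γ.toEquiv t = γ t := rfl
  change a (γ t) * b (γ (t⁻¹ * x)) = _
  rw [h2, map_mul, map_inv]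

/-- the unit is invariant under `κ` -/
theorem unt_fix {f : Y → F} {γ : MulAut Y} {w wi : Y → F} (hf : IsCl f) (h : Unt f γ w wi)
    (hg : ∀ y, f (γ y) = f y) : ∀ y, w (γ y) = w y := by
  have h1 : mulF (fun y => w (γ y)) w = mulF w w := by
    funext x
    unfold mulF
    have e1 := finsum_comp_equiv (γ⁻¹).toEquiv (f := fun t : Y => w (γ t) * w (t⁻¹ * x))
    rw [← e1]
    have e2 := finsum_comp_equiv ((Equiv.inv Y).trans (Equiv.mulRight x))
      (f := fun t : Y => w t * w (x * t⁻¹))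
    have e3 : ∀ t : Y, w (γ ((γ⁻¹).toEquiv t)) * w (((γ⁻¹).toEquiv t)⁻¹ * x) =
        w t * w (x * t⁻¹) := by
      intro t
      have h2 : (γ⁻¹).toEquiv t = γ⁻¹ t := rfl
      rw [h2, MulAut.apply_inv_self]
      have h3 := h.comm t ((γ⁻¹ t)⁻¹ * x)
      rw [mul_inv_cancel_left] at h3
      rw [h3]
    rw [finsum_congr e3, ← e2]
    apply finsum_congr
    intro t
    have h4 : ((Equiv.inv Y).trans (Equiv.mulRight x)) t = t⁻¹ * x := rfl
    rw [h4, mul_inv_rev, inv_inv, mul_inv_cancel_left, mul_comm]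
  have h2 : mulF (fun y => w (γ y)) f = w := by
    rw [← h.unit, ← mulF_assoc, h1, mulF_assoc, h.unit, ← mulF_comm_of_cl hf, h.fw]
  have h3 : mulF (fun y => w (γ y)) f = fun y => w (γ y) := by
    rw [← mulF_comm_of_cl hf]
    have e1 : (fun y => f (γ y)) = f := funext hg
    calc mulF f (fun y => w (γ y)) = mulF (fun y => f (γ y)) (fun y => w (γ y)) := by rw [e1]
      _ = fun y => mulF f w (γ y) := mulF_comp γ f w
      _ = fun y => w (γ y) := by rw [h.fw]
  intro y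
  exact congrFun (h3.symm.trans h2) y

end units

/-! ## The scalars -/

section scalars

variable [Finite Y]

theorem ibr_ne_zero {ℓ : ℕ} (hF : GoodF ℓ F) {H : Type} [Group H] [Finite H] {φ : H → F}
    (hφ : φ ∈ IBr F H) : φ ≠ 0 := by
  have h := (ibf ℓ F hF H).2.ne_zero ⟨φ, hφ⟩
  exact h

theorem ev_one_of_act {ℓ : ℕ} (hF : GoodF ℓ F) {H : Type} [Group H] [Finite H] {n : ℕ}
    {ρ : H →* Matrix (Fin n) (Fin n) F} (hρ : IsIrr ρ) {a : H → F} (ha : IsCl a)
    (h : actF a (tr ρ) = tr ρ) : ev ρ a = 1 := by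
  obtain ⟨ω, h1, h2, _⟩ := eig F H n ρ hρ a ha
  have h3 : ω • tr ρ = tr ρ := by rw [← h2, h]
  have h4 : tr ρ ≠ 0 := ibr_ne_zero hF ⟨n, ρ, hρ, rfl⟩
  have h5 : (ω - 1) • tr ρ = 0 := by rw [sub_smul, h3, one_smul, sub_self]
  rcases smul_eq_zero.1 h5 with h6 | h6
  · have h7 : ω = 1 := sub_eq_zero.1 h6
    rw [h1, h7, map_one]
  · exact absurd h6 h4

omit [Finite Y] in
theorem kap_fix {f : Y → F} {α β : MulAut Y} {w wi : Y → F} (h : Torus f α β w wi) (y : Y) :
    f (kap α β y) = f y := by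
  have h1 : ∀ y, f (α⁻¹ y) = f y := by
    intro y
    rw [← h.fa, MulAut.apply_inv_self]
  have h2 : ∀ y, f (β⁻¹ y) = f y := by
    intro y
    rw [← h.fb, MulAut.apply_inv_self]
  rw [kap_apply, h.fa, h.fb, h1, h2]

theorem ts_swap (htsb : TsbStmt) (hthe : TheStmt) {ℓ : ℕ} (hF : GoodF ℓ F)
    {f : Y → F} {α β : MulAut Y} {w wi : Y → F} (h : Torus f α β w wi)
    {d : Finset (Subgroup Y)} (hd : d ∈ chainsOn (psubIn ℓ (⊤ : Subgroup Y)) ⊥)
    (hn : NormalChain d) (ha : FixC α d) (hb : FixC β d) {φ : stab d → F}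
    (hφ : φ ∈ tset (stab d) f α β) :
    ts (stab d) φ β α wi = (ts (stab d) φ α β w)⁻¹ := by
  obtain ⟨h1, _, h3⟩ := htsb ℓ F hF Y f α β w wi h d hd ha hb φ hφ
  have h4 := h3 hn
  set s := ts (stab d) φ α β w with hs
  obtain ⟨n, ρ, A, B, hirr, htr, hA, hB, hABs⟩ := h1
  have hφ' : φ ∈ tset (stab d) f β α := ⟨hφ.1, hφ.2.1, hφ.2.2.2, hφ.2.2.1⟩
  have hcl := cl_of_blk h.blk
  set M : (Matrix (Fin n) (Fin n) F)ˣ := A * B * A⁻¹ * B⁻¹ with hM
  have hMi : Impl ρ ((kap α β)⁻¹ : MulAut Y) M⁻¹ := by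
    apply impl_inv
    rw [hM]
    have hai := fixC_inv ha
    have hbi := fixC_inv hb
    exact impl_mul hbi (impl_mul hai (impl_mul hb hA hB) (impl_inv hA)) (impl_inv hB)
  have hkf : FixC (kap α β) d := fixC_mul (fixC_mul (fixC_mul ha hb) (fixC_inv ha)) (fixC_inv hb)
  have hunt' := unt_inv hcl h.unt
  have hthe' := hthe ℓ F hF Y d hd hn n ρ hirr (kap α β) (kap α β)⁻¹ hkf (fixC_inv hkf) w wi
    h.unt.comm hunt'.comm M⁻¹ hMi
  have hwk : (fun y => w ((kap α β)⁻¹ y)) = w := by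
    funext y
    have := unt_fix hcl h.unt (kap_fix h) ((kap α β)⁻¹ y)
    rw [MulAut.apply_inv_self] at this
    exact this.symm
  rw [hwk, h.unt.unit] at hthe'
  have hev1 : ev ρ (fun t : stab d => f t) = 1 := by
    apply ev_one_of_act hF hirr
    · intro x y
      exact hcl x y
    · rw [htr]
      exact hφ.2.1
  rw [hev1, mul_one] at hthe'
  -- the scalar for the exchanged datum
  set P := ev ρ (fun t : stab d => w t) with hP
  set Q := ev ρ (fun t : stab d => wi t) with hQ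
  have hP1 : P = s • ((M⁻¹ : (Matrix (Fin n) (Fin n) F)ˣ) : Matrix (Fin n) (Fin n) F) := by
    have e1 : ((M⁻¹ : (Matrix (Fin n) (Fin n) F)ˣ) : Matrix (Fin n) (Fin n) F) *
        ((M : Matrix (Fin n) (Fin n) F) * P) = P := by
      rw [← mul_assoc, Units.inv_mul, one_mul]
    rw [← e1, hABs]
    rw [Matrix.scalar_apply, ← Matrix.smul_one_eq_diagonal, mul_smul_comm, mul_one]
  have hQ1 : ((M⁻¹ : (Matrix (Fin n) (Fin n) F)ˣ) : Matrix (Fin n) (Fin n) F) * Q =
      Matrix.scalar (Fin n) s⁻¹ := by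
    rw [hP1] at hthe'
    have e2 : ((M : Matrix (Fin n) (Fin n) F)) *
        (s • ((M⁻¹ : (Matrix (Fin n) (Fin n) F)ˣ) : Matrix (Fin n) (Fin n) F) *
          ((M⁻¹ : (Matrix (Fin n) (Fin n) F)ˣ) : Matrix (Fin n) (Fin n) F) * Q) = 1 := by
      rw [hthe', Units.mul_inv]
    rw [smul_mul_assoc, smul_mul_assoc, mul_smul_comm, mul_assoc,
      Units.mul_inv_cancel_left] at e2
    have e3 : ((M⁻¹ : (Matrix (Fin n) (Fin n) F)ˣ) : Matrix (Fin n) (Fin n) F) * Q =
        s⁻¹ • (s • (((M⁻¹ : (Matrix (Fin n) (Fin n) F)ˣ) : Matrix (Fin n) (Fin n) F) * Q)) := by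
      rw [smul_smul, inv_mul_cancel₀ h4, one_smul]
    rw [e3, e2, Matrix.scalar_apply, ← Matrix.smul_one_eq_diagonal]
  have hIS : IsTS (stab d) φ β α wi s⁻¹ := by
    refine ⟨n, ρ, B, A, hirr, htr, hB, hA, ?_⟩
    have e4 : B * A * B⁻¹ * A⁻¹ = M⁻¹ := by
      rw [hM]
      group
    rw [e4]
    exact hQ1
  obtain ⟨_, h6, _⟩ := htsb ℓ F hF Y f β α wi w (tor_swap h) d hd hb ha φ hφ'
  exact (h6 _ hIS).symm

end scalars

theorem lift_inv {τ : F → ℂ} (h : IsLift τ) : IsLift (fun s => τ s⁻¹) := by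
  refine ⟨?_, ?_, ?_⟩
  · rw [inv_one, h.one]
  · intro a b ha hb
    rw [mul_inv, h.mul _ _ (inv_ne_zero ha) (inv_ne_zero hb)]
  · intro a ha h1
    have h2 := h.inj a⁻¹ (inv_ne_zero ha) h1
    exact inv_eq_one.1 h2

/-- SWA -/
theorem swa (htsb : TsbStmt) (hthe : TheStmt) : SwaStmt := by
  classical
  intro ℓ F _ hF Y _ _ f α β hV τ hτ w wi hT
  have h0 : DD (fun s => τ s⁻¹) ℓ f β α wi = 0 := hV _ (lift_inv hτ) wi w (tor_swap hT)
  rw [← h0]
  unfold DD
  have := Fintype.ofFinite Y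
  simp only [finsum_eq_sum_of_fintype]
  rw [Finset.sum_comm]
  apply Finset.sum_congr rfl
  intro m _
  apply Finset.sum_congr rfl
  intro n _
  refine Finset.sum_congr ?_ ?_
  · ext d
    simp only [Finset.mem_filter]
    constructor
    · rintro ⟨a0, a1, a2, a3⟩
      exact ⟨a0, a1, a3, a2⟩
    · rintro ⟨a0, a1, a2, a3⟩
      exact ⟨a0, a1, a3, a2⟩
  intro d hd
  obtain ⟨hd, hn, hb, ha⟩ := Finset.mem_filter.1 hd
  have hset : tset (stab d) f (tw β m) (tw α n) = tset (stab d) f (tw α n) (tw β m) := by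
    ext φ
    constructor
    · rintro ⟨a1, a2, a3, a4⟩
      exact ⟨a1, a2, a4, a3⟩
    · rintro ⟨a1, a2, a3, a4⟩
      exact ⟨a1, a2, a4, a3⟩
  have hwi : (fun y => wi (cc β α m n * y)) = fun y => wi (y * (cc α β n m)⁻¹) := by
    funext y
    rw [kap_cc]
    have h1 := (unt_inv (cl_of_blk hT.blk) hT.unt).comm (cc α β n m)
      ((kap α β (cc α β n m))⁻¹ * y)
    rw [inv_inv, mul_inv_cancel_left] at h1
    exact h1.symm
  congr 1
  unfold tcon
  rw [hset, hwi]
  congr 1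
  apply finsum_mem_congr rfl
  intro φ hφ
  have h2 := ts_swap htsb hthe hF (tor_tw hT n m) hd hn ha hb hφ
  rw [h2]
  change _ = τ (_⁻¹)⁻¹
  rw [inv_inv]

end Pool.Agent.PP.H33S
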